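import Pool.Agent.MP_d32a63_an.H58.Spec

/-! Row LA: chains of cells (`LAV`, `LA1`, `LA2`). -/

open Set Metric
open Complex (I)
open Pool.Agent.MP_d32a63_an.H58

namespace Pool.Agent.MP_d32a63_an.H97

noncomputable section

/-- What a chain of links of total length at most `s` gives. -/
structure PP (K ℓ : ℝ) (φ γ : ℤ × ℤ → ℂ) (s : ℝ) (Q Q' : ℤ × ℤ) : Prop where
  hx : ‖cen ℓ Q' - cen ℓ Q‖ ≤ s
  hv : ‖φ Q' - φ Q‖ ≤ 2 * K * s
  hc : ‖γ Q' - γ Q‖ ≤ 2 * K * s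
  t1 : ‖φ Q' - φ Q - γ Q * (cen ℓ Q' - cen ℓ Q)‖ ≤ K * s ^ 2
  t2 : ‖φ Q - φ Q' - γ Q' * (cen ℓ Q - cen ℓ Q')‖ ≤ K * s ^ 2

section chain

variable {K ℓ : ℝ} {φ γ : ℤ × ℤ → ℂ}

theorem PP.refl (Q : ℤ × ℤ) : PP K ℓ φ γ 0 Q Q := by
  refine ⟨?_, ?_, ?_, ?_, ?_⟩ <;> simp

theorem PP.symm {s : ℝ} {Q Q' : ℤ × ℤ} (h : PP K ℓ φ γ s Q Q') : PP K ℓ φ γ s Q' Q :=
  ⟨by rw [norm_sub_rev]; exact h.hx, by rw [norm_sub_rev]; exact h.hv,
    by rw [norm_sub_rev]; exact h.hc, h.t2, h.t1⟩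

theorem PP.nonneg {s : ℝ} {Q Q' : ℤ × ℤ} (h : PP K ℓ φ γ s Q Q') : 0 ≤ s :=
  (norm_nonneg _).trans h.hx

theorem PP.mono (hK : 0 ≤ K) {s s' : ℝ} {Q Q' : ℤ × ℤ} (h : PP K ℓ φ γ s Q Q') (hs : s ≤ s') :
    PP K ℓ φ γ s' Q Q' := by
  have h0 := h.nonneg
  have h1 : 2 * K * s ≤ 2 * K * s' := mul_le_mul_of_nonneg_left hs (by linarith)
  have h2 : K * s ^ 2 ≤ K * s' ^ 2 :=
    mul_le_mul_of_nonneg_left (pow_le_pow_left₀ h0 hs 2) hK
  exact ⟨h.hx.trans hs, h.hv.trans h1, h.hc.trans h1, h.t1.trans h2, h.t2.trans h2⟩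

theorem tri3 (K s s' : ℝ) (a b c p q : ℂ) (e : ℂ) (he : e = a + b + p * q) (ha : ‖a‖ ≤ K * s ^ 2)
    (hb : ‖b‖ ≤ K * s' ^ 2) (hp : ‖p‖ ≤ 2 * K * s) (hq : ‖q‖ ≤ s') (hc : c = e) :
    ‖c‖ ≤ K * (s + s') ^ 2 := by
  have h1 : ‖p * q‖ ≤ 2 * K * s * s' := by
    rw [norm_mul]
    exact mul_le_mul hp hq (norm_nonneg _) ((norm_nonneg _).trans hp)
  have h2 : ‖a + b + p * q‖ ≤ ‖a‖ + ‖b‖ + ‖p * q‖ := norm_add₃_le
  rw [hc, he]
  nlinarith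

theorem PP.trans {s s' : ℝ} {Q Q' Q'' : ℤ × ℤ} (h : PP K ℓ φ γ s Q Q')
    (h' : PP K ℓ φ γ s' Q' Q'') : PP K ℓ φ γ (s + s') Q Q'' := by
  refine ⟨?_, ?_, ?_, ?_, ?_⟩
  · have := norm_sub_le_norm_sub_add_norm_sub (cen ℓ Q'') (cen ℓ Q') (cen ℓ Q)
    linarith [h.hx, h'.hx]
  · have := norm_sub_le_norm_sub_add_norm_sub (φ Q'') (φ Q') (φ Q)
    linarith [h.hv, h'.hv]
  · have := norm_sub_le_norm_sub_add_norm_sub (γ Q'') (γ Q') (γ Q)
    linarith [h.hc, h'.hc]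
  · exact tri3 K s s' _ _ _ _ _ _ (by ring) h.t1 h'.t1 h.hc h'.hx rfl
  · rw [add_comm s s']
    exact tri3 K s' s _ _ _ _ _ _ (by ring) h'.t2 h.t2 h'.symm.hc h.symm.hx rfl

theorem PP.link (hℓ : 0 < ℓ) (hℓ1 : ℓ ≤ 1) (hK : 0 ≤ K) {Q Q' : ℤ × ℤ}
    (hx : ‖cen ℓ Q' - cen ℓ Q‖ = ℓ) (hc : ‖γ Q‖ ≤ K)
    (t1 : ‖φ Q' - φ Q - γ Q * (cen ℓ Q' - cen ℓ Q)‖ ≤ K * ℓ ^ 2)
    (t2 : ‖φ Q - φ Q' - γ Q' * (cen ℓ Q - cen ℓ Q')‖ ≤ K * ℓ ^ 2) : PP K ℓ φ γ ℓ Q Q' := by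
  refine ⟨hx.le, ?_, ?_, t1, t2⟩
  · have e : φ Q' - φ Q = (φ Q' - φ Q - γ Q * (cen ℓ Q' - cen ℓ Q)) +
        γ Q * (cen ℓ Q' - cen ℓ Q) := by ring
    have h1 : ‖γ Q * (cen ℓ Q' - cen ℓ Q)‖ ≤ K * ℓ := by
      rw [norm_mul, hx]; exact mul_le_mul_of_nonneg_right hc hℓ.le
    have h2 := norm_add_le (φ Q' - φ Q - γ Q * (cen ℓ Q' - cen ℓ Q))
      (γ Q * (cen ℓ Q' - cen ℓ Q))
    have h3 : K * ℓ ^ 2 ≤ K * ℓ := mul_le_mul_of_nonneg_left (by nlinarith) hK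
    rw [e]; linarith
  · have e : (γ Q' - γ Q) * (cen ℓ Q' - cen ℓ Q) =
        (φ Q' - φ Q - γ Q * (cen ℓ Q' - cen ℓ Q)) +
          (φ Q - φ Q' - γ Q' * (cen ℓ Q - cen ℓ Q')) := by ring
    have h2 := norm_add_le (φ Q' - φ Q - γ Q * (cen ℓ Q' - cen ℓ Q))
      (φ Q - φ Q' - γ Q' * (cen ℓ Q - cen ℓ Q'))
    rw [← e, norm_mul, hx] at h2
    have h3 : ‖γ Q' - γ Q‖ * ℓ ≤ (2 * K * ℓ) * ℓ := by nlinarith
    exact le_of_mul_le_mul_right h3 hℓ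

/-- A chain along a sequence of cells. -/
theorem PP.chain (s : ℝ) (f : ℤ → ℤ × ℤ) (a : ℤ) (m : ℕ)
    (h : ∀ t : ℤ, a ≤ t → t < a + m → PP K ℓ φ γ s (f t) (f (t + 1))) :
    PP K ℓ φ γ (m * s) (f a) (f (a + m)) := by
  induction m with
  | zero => simpa using PP.refl (f a)
  | succ m ih =>
    have h1 := ih (fun t h1 h2 => h t h1 (by push_cast; omega))
    have h2 := h (a + m) (by omega) (by push_cast; omega)
    have h3 := h1.trans h2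
    have e1 : ((m + 1 : ℕ) : ℝ) * s = m * s + s := by push_cast; ring
    have e2 : a + ((m + 1 : ℕ) : ℤ) = a + m + 1 := by push_cast; ring
    rw [e1, e2]; exact h3

theorem PP.chain' (s : ℝ) (f : ℤ → ℤ × ℤ) (a b : ℤ) (hab : a ≤ b)
    (h : ∀ t : ℤ, a ≤ t → t < b → PP K ℓ φ γ s (f t) (f (t + 1))) :
    PP K ℓ φ γ (((b - a : ℤ) : ℝ) * s) (f a) (f b) := by
  obtain ⟨m, rfl⟩ := Int.le.dest hab
  have := PP.chain s f a m h
  have e : ((a + m - a : ℤ) : ℝ) = m := by push_cast; ring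
  rw [e]; exact this

theorem PP.chain'' (s : ℝ) (f : ℤ → ℤ × ℤ) (a b : ℤ)
    (h : ∀ t : ℤ, min a b ≤ t → t < max a b → PP K ℓ φ γ s (f t) (f (t + 1))) :
    PP K ℓ φ γ (|(b : ℝ) - a| * s) (f a) (f b) := by
  rcases le_total a b with hab | hab
  · rw [min_eq_left hab, max_eq_right hab] at h
    have h1 := PP.chain' s f a b hab h
    have h2 : (0 : ℝ) ≤ (b : ℝ) - a := by
      have : (a : ℝ) ≤ b := by exact_mod_cast hab
      linarith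
    rw [abs_of_nonneg h2]
    push_cast at h1; exact h1
  · rw [min_eq_right hab, max_eq_left hab] at h
    have h1 := (PP.chain' s f b a hab h).symm
    have h2 : (b : ℝ) - a ≤ 0 := by
      have : (b : ℝ) ≤ a := by exact_mod_cast hab
      linarith
    rw [abs_of_nonpos h2, neg_sub]
    push_cast at h1; exact h1

end chain

theorem cen_re (ℓ : ℝ) (i j : ℤ) : (cen ℓ (i, j)).re = ((i : ℝ) + 1 / 2) * ℓ := by
  simp only [cen, Complex.add_re, Complex.mul_re, Complex.ofReal_re, Complex.ofReal_im,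
    Complex.I_re, Complex.I_im]
  ring

theorem cen_im (ℓ : ℝ) (i j : ℤ) : (cen ℓ (i, j)).im = ((j : ℝ) + 1 / 2) * ℓ := by
  simp only [cen, Complex.add_im, Complex.mul_im, Complex.ofReal_re, Complex.ofReal_im,
    Complex.I_re, Complex.I_im]
  ring

theorem cen_ver {ℓ : ℝ} (hℓ : 0 < ℓ) (i j : ℤ) : ‖cen ℓ (i, j + 1) - cen ℓ (i, j)‖ = ℓ := by
  have e : cen ℓ (i, j + 1) - cen ℓ (i, j) = (ℓ : ℂ) * I := by
    apply Complex.ext
    · simp only [Complex.sub_re, cen_re, Complex.mul_re, Complex.ofReal_re, Complex.ofReal_im,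
        Complex.I_re, Complex.I_im]
      ring
    · simp only [Complex.sub_im, cen_im, Complex.mul_im, Complex.ofReal_re, Complex.ofReal_im,
        Complex.I_re, Complex.I_im]
      push_cast; ring
  rw [e, norm_mul, Complex.norm_I, mul_one, Complex.norm_real, Real.norm_of_nonneg hℓ.le]

theorem cen_hor {ℓ : ℝ} (hℓ : 0 < ℓ) (k j : ℤ) : ‖cen ℓ (k, j) - cen ℓ (k - 1, j)‖ = ℓ := by
  have e : cen ℓ (k, j) - cen ℓ (k - 1, j) = (ℓ : ℂ) := by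
    apply Complex.ext
    · simp only [Complex.sub_re, cen_re, Complex.ofReal_re]
      push_cast; ring
    · simp only [Complex.sub_im, cen_im, Complex.ofReal_im]
      ring
  rw [e, Complex.norm_real, Real.norm_of_nonneg hℓ.le]

theorem floor_near {ℓ : ℝ} (hℓ : 0 < ℓ) (x : ℝ) :
    |((⌊x / ℓ⌋ : ℤ) + 1 / 2 : ℝ) * ℓ - x| ≤ ℓ / 2 := by
  have h1 := Int.floor_le (x / ℓ)
  have h2 := Int.lt_floor_add_one (x / ℓ)
  rw [le_div_iff₀ hℓ] at h1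
  rw [div_lt_iff₀ hℓ] at h2
  rw [abs_le]; constructor <;> nlinarith

section cells

variable {W : Set ℂ} {Γ : Set Seg} {F0 : ℂ → ℂ} {τ K : ℝ} {βf : ℝ → ℝ} {e : ℂ} {d : ℝ}
  {g0 : ℂ → ℂ} {ℓ : ℝ} {Φ μ c : ℤ × ℤ → ℂ → ℂ}

/-- The cell is active and `w` is in its tube. -/
def Gd (W : Set ℂ) (F0 : ℂ → ℂ) (τ ℓ : ℝ) (w : ℂ) (Q : ℤ × ℤ) : Prop :=
  act W ℓ Q ∧ w ∈ tube F0 τ ℓ Q

theorem ell_le (h : Cells W Γ F0 τ K βf e d g0 ℓ Φ μ c) : ℓ ≤ d / 10 := by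
  have := h.ld; have := h.d0; have := h.d1; nlinarith

theorem step_hor (h : Cells W Γ F0 τ K βf e d g0 ℓ Φ μ c) (hK : 1 ≤ K) {w : ℂ} {k j : ℤ}
    (h1 : Gd W F0 τ ℓ w (k - 1, j)) (h2 : Gd W F0 τ ℓ w (k, j)) (hf : Fr W Γ d ℓ k j) :
    PP K ℓ (fun Q => Φ Q w) (fun Q => c Q w) ℓ (k - 1, j) (k, j) := by
  have hl := ell_le h
  obtain ⟨l1, l2⟩ := h.hor k j h1.1 h2.1 hf
  exact PP.link h.l0 (by linarith [h.d1]) (by linarith) (cen_hor h.l0 k j) (h.cb _ h1.1 w h1.2)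
    (l1 w h1.2 h2.2) (l2 w h2.2 h1.2)

theorem step_ver0 (h : Cells W Γ F0 τ K βf e d g0 ℓ Φ μ c) (hK : 1 ≤ K) {w : ℂ} {i j : ℤ}
    (hp : (i + j) % 2 = 0) (h1 : Gd W F0 τ ℓ w (i, j)) (h2 : Gd W F0 τ ℓ w (i, j + 1)) :
    PP K ℓ (fun Q => Φ Q w) (fun Q => c Q w) ℓ (i, j) (i, j + 1) := by
  have hl := ell_le h
  obtain ⟨l1, l2⟩ := h.ver i j hp h1.1 h2.1
  exact PP.link h.l0 (by linarith [h.d1]) (by linarith) (cen_ver h.l0 i j) (h.cb _ h1.1 w h1.2)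
    (l1 w h1.2 h2.2) (l2 w h2.2 h1.2)

theorem step_ver (h : Cells W Γ F0 τ K βf e d g0 ℓ Φ μ c) (hK : 1 ≤ K) {w : ℂ} {k j : ℤ}
    (hg : ∀ i j' : ℤ, k - 1 ≤ i → i ≤ k + 1 → j ≤ j' → j' ≤ j + 1 → Gd W F0 τ ℓ w (i, j')) :
    PP K ℓ (fun Q => Φ Q w) (fun Q => c Q w) (3 * ℓ) (k, j) (k, j + 1) := by
  have hl0 := h.l0
  have e3 : 3 * ℓ = ℓ + ℓ + ℓ := by ring
  have g00 := hg k j (by omega) (by omega) (by omega) (by omega)
  have g01 := hg k (j + 1) (by omega) (by omega) (by omega) (by omega)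
  by_cases hp : (k + j) % 2 = 0
  · exact (step_ver0 h hK hp g00 g01).mono (by linarith) (by linarith)
  by_cases h3 : (k + 1) % 3 = 0
  · have g10 := hg (k - 1) j (by omega) (by omega) (by omega) (by omega)
    have g11 := hg (k - 1) (j + 1) (by omega) (by omega) (by omega) (by omega)
    have a1 := (step_hor h hK g10 g00 (Or.inl (by omega))).symm
    have a2 := step_ver0 h hK (by omega) g10 g11
    have a3 := step_hor h hK g11 g01 (Or.inl (by omega))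
    rw [e3]; exact (a1.trans a2).trans a3
  · have g10 := hg (k + 1) j (by omega) (by omega) (by omega) (by omega)
    have g11 := hg (k + 1) (j + 1) (by omega) (by omega) (by omega) (by omega)
    have ek : k + 1 - 1 = k := by ring
    have a1 := step_hor h hK (k := k + 1) (by rw [ek]; exact g00) g10 (Or.inl h3)
    have a2 := step_ver0 h hK (by omega) g10 g11
    have a3 := (step_hor h hK (k := k + 1) (by rw [ek]; exact g01) g11 (Or.inl h3)).symm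
    rw [ek] at a1 a3
    rw [e3]; exact (a1.trans a2).trans a3

theorem lav : LAV := by
  intro W Γ F0 τ K βf e d g0 ℓ Φ μ c h hK k j1 j2 w hj hg
  have h1 := PP.chain' (K := K) (ℓ := ℓ) (φ := fun Q => Φ Q w) (γ := fun Q => c Q w) (3 * ℓ)
    (fun t => (k, t)) j1 j2 hj (fun t h1 h2 => step_ver h hK
      (fun i j' a1 a2 a3 a4 => hg i j' a1 a2 (by omega) (by omega)))
  have h2 := h1.symm.hv
  calc _ ≤ _ := h2
    _ = _ := by ring

/-- An index whose centre coordinate is within `ρ` of `x`. -/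
def Nr (ℓ x ρ : ℝ) (i : ℤ) : Prop := |((i : ℝ) + 1 / 2) * ℓ - x| ≤ ρ

theorem Nr.between {ℓ x ρ : ℝ} (hℓ : 0 < ℓ) {a b t : ℤ} (ha : Nr ℓ x ρ a) (hb : Nr ℓ x ρ b)
    (h1 : min a b ≤ t) (h2 : t ≤ max a b) : Nr ℓ x ρ t := by
  unfold Nr at *
  rw [abs_le] at *
  have h1' : (a : ℝ) ≤ t ∨ (b : ℝ) ≤ t := by
    rcases min_le_iff.1 h1 with h | h
    · left; exact_mod_cast h
    · right; exact_mod_cast h
  have h2' : (t : ℝ) ≤ a ∨ (t : ℝ) ≤ b := by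
    rcases le_max_iff.1 h2 with h | h
    · left; exact_mod_cast h
    · right; exact_mod_cast h
  constructor
  · rcases h1' with h | h <;> nlinarith [ha.1, hb.1]
  · rcases h2' with h | h <;> nlinarith [ha.2, hb.2]

theorem Nr.nb {ℓ x ρ ρ' : ℝ} (hℓ : 0 < ℓ) {a t : ℤ} (ha : Nr ℓ x ρ a) (h1 : a - 1 ≤ t)
    (h2 : t ≤ a + 1) (hρ : ρ + ℓ ≤ ρ') : Nr ℓ x ρ' t := by
  unfold Nr at *
  rw [abs_le] at *
  have h1' : (a : ℝ) - 1 ≤ t := by exact_mod_cast h1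
  have h2' : (t : ℝ) ≤ a + 1 := by exact_mod_cast h2
  constructor <;> nlinarith [ha.1, ha.2]

theorem Nr.mono {ℓ x ρ ρ' : ℝ} {a : ℤ} (ha : Nr ℓ x ρ a) (hρ : ρ ≤ ρ') : Nr ℓ x ρ' a :=
  le_trans ha hρ

theorem Nr.shift {ℓ x y ρ ρ' : ℝ} {a : ℤ} (ha : Nr ℓ x ρ a) (hρ : |x - y| + ρ ≤ ρ') :
    Nr ℓ y ρ' a := by
  unfold Nr at *
  have := abs_sub_le (((a : ℝ) + 1 / 2) * ℓ) x y
  linarith

theorem Nr.dist {ℓ x y ρ ρ' : ℝ} (hℓ : 0 < ℓ) {a b : ℤ} (ha : Nr ℓ x ρ a) (hb : Nr ℓ y ρ' b) :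
    |(b : ℝ) - a| * ℓ ≤ |y - x| + ρ + ρ' := by
  unfold Nr at *
  have e : |(b : ℝ) - a| * ℓ = |((b : ℝ) - a) * ℓ| := by rw [abs_mul, abs_of_pos hℓ]
  have h1 := le_abs_self (y - x)
  have h2 := neg_abs_le (y - x)
  rw [e]
  rw [abs_le] at *
  constructor <;> nlinarith [ha.1, ha.2, hb.1, hb.2]

theorem cen_dist {ℓ ρ : ℝ} {z0 : ℂ} {i j : ℤ} (hi : Nr ℓ z0.re ρ i) (hj : Nr ℓ z0.im ρ j) :
    dist (cen ℓ (i, j)) z0 ≤ 2 * ρ := by
  rw [dist_eq_norm]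
  have h := Complex.norm_le_abs_re_add_abs_im (cen ℓ (i, j) - z0)
  rw [Complex.sub_re, Complex.sub_im, cen_re, cen_im] at h
  unfold Nr at *
  linarith

theorem sub_ball {ℓ R r : ℝ} {z0 : ℂ} {i j : ℤ} (hi : Nr ℓ z0.re (2 * R) i)
    (hj : Nr ℓ z0.im (2 * R) j) (hr : r ≤ 4 * R) : ball (cen ℓ (i, j)) r ⊆ ball z0 (8 * R) :=
  ball_subset_ball' (by linarith [cen_dist hi hj])

theorem good_of (h : Cells W Γ F0 τ K βf e d g0 ℓ Φ μ c) {z0 w : ℂ} {R : ℝ} (hR : 10 * d ≤ R)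
    (hW : Disjoint (ball z0 (8 * R)) (closure W))
    (hw : ∀ Q, cen ℓ Q ∈ ball z0 (8 * R) → w ∈ tube F0 τ ℓ Q) {i j : ℤ}
    (hi : Nr ℓ z0.re (2 * R) i) (hj : Nr ℓ z0.im (2 * R) j) : Gd W F0 τ ℓ w (i, j) := by
  have hl := ell_le h
  have hd := h.d0
  refine ⟨hW.mono_left (sub_ball hi hj (by linarith)), hw _ ?_⟩
  rw [mem_ball]
  linarith [cen_dist hi hj]

theorem reg_ver (h : Cells W Γ F0 τ K βf e d g0 ℓ Φ μ c) (hK : 1 ≤ K) {z0 w : ℂ} {R : ℝ}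
    (hR : 10 * d ≤ R) (hW : Disjoint (ball z0 (8 * R)) (closure W))
    (hw : ∀ Q, cen ℓ Q ∈ ball z0 (8 * R) → w ∈ tube F0 τ ℓ Q) {i j j' : ℤ}
    (hi : Nr ℓ z0.re (3 / 2 * R) i) (hj : Nr ℓ z0.im (2 * R) j) (hj' : Nr ℓ z0.im (2 * R) j') :
    PP K ℓ (fun Q => Φ Q w) (fun Q => c Q w) (|(j' : ℝ) - j| * (3 * ℓ)) (i, j) (i, j') := by
  have hl := ell_le h
  have hd := h.d0
  refine PP.chain'' (3 * ℓ) (fun t => (i, t)) j j' (fun t h1 h2 => step_ver h hK ?_)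
  intro a b a1 a2 a3 a4
  exact good_of h hR hW hw (hi.nb h.l0 a1 a2 (by linarith))
    (hj.between h.l0 hj' (by omega) (by omega))

theorem reg_hor (h : Cells W Γ F0 τ K βf e d g0 ℓ Φ μ c) (hK : 1 ≤ K) {z0 w : ℂ} {R : ℝ}
    (hR : 10 * d ≤ R) (hW : Disjoint (ball z0 (8 * R)) (closure W))
    (hw : ∀ Q, cen ℓ Q ∈ ball z0 (8 * R) → w ∈ tube F0 τ ℓ Q) {i i' j : ℤ}
    (hi : Nr ℓ z0.re (2 * R) i) (hi' : Nr ℓ z0.re (2 * R) i') (hj : Nr ℓ z0.im (2 * R) j)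
    (hf : ∀ k : ℤ, min i i' < k → k ≤ max i i' → Nr ℓ z0.re (2 * R) k → k % 3 ≠ 0 ∨
      ∀ g ∈ Γ, Disjoint (ball (cen ℓ (k, j)) ℓ) (segment ℝ g.p g.v)) :
    PP K ℓ (fun Q => Φ Q w) (fun Q => c Q w) (|(i' : ℝ) - i| * ℓ) (i, j) (i', j) := by
  have hl := ell_le h
  have hd := h.d0
  refine PP.chain'' ℓ (fun t => (t, j)) i i' (fun t h1 h2 => ?_)
  have n0 : Nr ℓ z0.re (2 * R) t := hi.between h.l0 hi' h1 h2.le
  have n1 : Nr ℓ z0.re (2 * R) (t + 1) := hi.between h.l0 hi' (by omega) (by omega)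
  have ek : t + 1 - 1 = t := by ring
  have hF : Fr W Γ d ℓ (t + 1) j := by
    rcases hf (t + 1) (by omega) (by omega) n1 with h3 | h3
    · exact Or.inl h3
    · exact Or.inr ⟨hW.mono_left (sub_ball n1 hj (by linarith)), h3⟩
  have a := step_hor h hK (k := t + 1) (by rw [ek]; exact good_of h hR hW hw n0 hj)
    (good_of h hR hW hw n1 hj) hF
  rw [ek] at a
  exact a

theorem near_cl {ℓ R : ℝ} (hℓ : 0 < ℓ) {z0 z : ℂ} (hz : z ∈ ball z0 R) :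
    Nr ℓ z0.re (R + ℓ / 2) ⌊z.re / ℓ⌋ ∧ Nr ℓ z0.im (R + ℓ / 2) ⌊z.im / ℓ⌋ := by
  rw [mem_ball, dist_eq_norm] at hz
  have h1 := Complex.abs_re_le_norm (z - z0)
  have h2 := Complex.abs_im_le_norm (z - z0)
  rw [Complex.sub_re] at h1
  rw [Complex.sub_im] at h2
  exact ⟨Nr.shift (floor_near hℓ z.re) (by linarith), Nr.shift (floor_near hℓ z.im) (by linarith)⟩

/-- No gap in the ball: a chain between the cells of two points. -/
theorem free_chain (h : Cells W Γ F0 τ K βf e d g0 ℓ Φ μ c) (hK : 1 ≤ K) {z0 w : ℂ} {R : ℝ}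
    (hR : 10 * d ≤ R) (hW : Disjoint (ball z0 (8 * R)) (closure W))
    (hw : ∀ Q, cen ℓ Q ∈ ball z0 (8 * R) → w ∈ tube F0 τ ℓ Q)
    (hΓ : ∀ g ∈ Γ, Disjoint (ball z0 (8 * R)) (segment ℝ g.p g.v)) {z z' : ℂ}
    (hz : z ∈ ball z0 R) (hz' : z' ∈ ball z0 R) :
    PP K ℓ (fun Q => Φ Q w) (fun Q => c Q w) (4 * (‖z' - z‖ + ℓ)) (cl ℓ z) (cl ℓ z') := by
  have hl := ell_le h
  have hd := h.d0
  have hl0 := h.l0
  obtain ⟨a1, a2⟩ := near_cl h.l0 hz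
  obtain ⟨b1, b2⟩ := near_cl h.l0 hz'
  have p1 := reg_ver h hK hR hW hw (a1.mono (by linarith)) (a2.mono (by linarith))
    (b2.mono (by linarith))
  have p2 := reg_hor h hK hR hW hw (a1.mono (by linarith)) (b1.mono (by linarith))
    (b2.mono (by linarith)) (fun k _ _ hk => Or.inr (fun g hg =>
      (hΓ g hg).mono_left (sub_ball hk (b2.mono (by linarith)) (by linarith))))
  refine (p1.trans p2).mono (by linarith) ?_
  have d1 := Nr.dist h.l0 (floor_near h.l0 z.re) (floor_near h.l0 z'.re)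
  have d2 := Nr.dist h.l0 (floor_near h.l0 z.im) (floor_near h.l0 z'.im)
  have h1 := Complex.abs_re_le_norm (z' - z)
  have h2 := Complex.abs_im_le_norm (z' - z)
  rw [Complex.sub_re] at h1
  rw [Complex.sub_im] at h2
  nlinarith

theorem la2 (hB : BASIC) : LA2 := by
  intro W Γ F0 τ K βf e d g0 ℓ Φ μ c h hK z0 w R hR hW hw hΓ z hz z' hz'
  have hl := ell_le h
  have hd := h.d0
  have hl0 := h.l0
  have p := (free_chain h hK hR hW hw hΓ hz hz').t1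
  obtain ⟨a1, a2⟩ := near_cl h.l0 hz
  have hg : Gd W F0 τ ℓ w (cl ℓ z) :=
    good_of h hR hW hw (a1.mono (by linarith)) (a2.mono (by linarith))
  have hc := h.cb _ hg.1 w hg.2
  have c1 := hB.cl1 ℓ z hl0
  have c2 := hB.cl1 ℓ z' hl0
  have e1 : Φ (cl ℓ z') w - Φ (cl ℓ z) w - c (cl ℓ z) w * (z' - z) =
      (Φ (cl ℓ z') w - Φ (cl ℓ z) w - c (cl ℓ z) w * (cen ℓ (cl ℓ z') - cen ℓ (cl ℓ z))) +
        c (cl ℓ z) w * ((z - cen ℓ (cl ℓ z)) - (z' - cen ℓ (cl ℓ z'))) := by ring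
  have n1 : ‖(z - cen ℓ (cl ℓ z)) - (z' - cen ℓ (cl ℓ z'))‖ ≤ 2 * ℓ := by
    have := norm_sub_le (z - cen ℓ (cl ℓ z)) (z' - cen ℓ (cl ℓ z'))
    linarith
  have n2 : ‖c (cl ℓ z) w * ((z - cen ℓ (cl ℓ z)) - (z' - cen ℓ (cl ℓ z')))‖ ≤ K * (2 * ℓ) := by
    rw [norm_mul]; exact mul_le_mul hc n1 (norm_nonneg _) (by linarith)
  rw [e1]
  refine (norm_add_le _ _).trans ?_
  have t0 := norm_nonneg (z' - z)
  set t := ‖z' - z‖
  have q1 : (4 * (t + ℓ)) ^ 2 ≤ 16 * (t + d) ^ 2 := by nlinarith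
  have q2 : 2 * ℓ ≤ 2 * (t + d) ^ 2 := by nlinarith [h.ld]
  have q3 : K * (4 * (t + ℓ)) ^ 2 ≤ K * (16 * (t + d) ^ 2) :=
    mul_le_mul_of_nonneg_left q1 (by linarith)
  have q4 : K * (2 * ℓ) ≤ K * (2 * (t + d) ^ 2) := mul_le_mul_of_nonneg_left q2 (by linarith)
  have q5 : 0 ≤ K * (t + d) ^ 2 := mul_nonneg (by linarith) (sq_nonneg _)
  nlinarith

theorem seg_re {p v x : ℂ} (hre : p.re = v.re) (hx : x ∈ segment ℝ p v) : x.re = p.re := by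
  obtain ⟨a, b, -, -, hab, rfl⟩ := hx
  simp only [Complex.add_re, Complex.smul_re, smul_eq_mul]
  rw [← hre, ← add_mul, hab, one_mul]

theorem seg_of {p v x : ℂ} (hre : p.re = v.re) (hx : x.re = p.re) (h1 : p.im ≤ x.im)
    (h2 : x.im ≤ v.im) : x ∈ segment ℝ p v := by
  have h3 : x.im ∈ segment ℝ p.im v.im := by
    rw [segment_eq_Icc (h1.trans h2)]; exact ⟨h1, h2⟩
  obtain ⟨a, b, ha, hb, hab, he⟩ := h3
  refine ⟨a, b, ha, hb, hab, ?_⟩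
  apply Complex.ext
  · simp only [Complex.add_re, Complex.smul_re, smul_eq_mul]
    rw [← hre, ← add_mul, hab, one_mul, hx]
  · simpa only [Complex.add_im, Complex.smul_im] using he

/-- A vertical segment through the centre of a ball with both ends outside covers the diameter. -/
theorem seg_cover {p v z0 x : ℂ} {r : ℝ} (hre : p.re = v.re) (h0 : z0 ∈ segment ℝ p v)
    (hp : p ∉ ball z0 r) (hv : v ∉ ball z0 r) (hx : x.re = z0.re) (hi : |x.im - z0.im| < r) :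
    x ∈ segment ℝ p v := by
  have r0 := seg_re hre h0
  have far : ∀ y : ℂ, y.re = z0.re → y ∉ ball z0 r → r ≤ |y.im - z0.im| := by
    intro y hy hb
    rw [mem_ball, dist_eq_norm, not_lt] at hb
    have := Complex.norm_le_abs_re_add_abs_im (y - z0)
    rw [Complex.sub_re, Complex.sub_im, hy, sub_self, abs_zero, zero_add] at this
    linarith
  have fp := far p r0.symm hp
  have fv := far v (by rw [← hre, r0]) hv
  have him : z0.im ∈ segment ℝ p.im v.im := by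
    obtain ⟨a, b, ha, hb, hab, he⟩ := h0
    refine ⟨a, b, ha, hb, hab, ?_⟩
    rw [← he]
    simp only [Complex.add_im, Complex.smul_im]
  rw [abs_lt] at hi
  rcases le_total p.im v.im with hpv | hpv
  · rw [segment_eq_Icc hpv] at him
    rw [abs_of_nonpos (by linarith [him.1])] at fp
    rw [abs_of_nonneg (by linarith [him.2])] at fv
    exact seg_of hre (by rw [hx, r0]) (by linarith) (by linarith)
  · rw [segment_symm, segment_eq_Icc hpv] at him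
    rw [abs_of_nonneg (by linarith [him.2])] at fp
    rw [abs_of_nonpos (by linarith [him.1])] at fv
    rw [segment_symm]
    exact seg_of hre.symm (by rw [hx, r0, hre]) (by linarith) (by linarith)

theorem la1 : LA1 := by
  intro n W F Γ τ K βf e d g0 ℓ Φ μ c hG h hK z0 w R hR hW hw hΓ z hz z' hz'
  have hl := ell_le h
  have hd := h.d0
  have hl0 := h.l0
  have t0 := norm_nonneg (z - z')
  rcases hΓ with hΓ | ⟨g, hg, hz0, hΓ⟩
  · have p := (free_chain h hK hR hW hw hΓ hz' hz).hv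
    refine p.trans ?_
    nlinarith [mul_nonneg (by linarith : (0 : ℝ) ≤ K) t0]
  have hre := hG.vert g hg
  have r0 := seg_re hre hz0
  have hzi : |z.im - z0.im| < R := by
    rw [mem_ball, dist_eq_norm] at hz
    have h2 := Complex.abs_im_le_norm (z - z0)
    rw [Complex.sub_im] at h2
    linarith
  have hz1 : (⟨z0.re, z.im⟩ : ℂ) ∈ segment ℝ g.p g.v :=
    seg_cover hre hz0 (fun hb => disjoint_left.1 hW hb (hG.ends g hg).1)
      (fun hb => disjoint_left.1 hW hb (hG.ends g hg).2) rfl (by linarith)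
  have hb1 : ball (⟨z0.re, z.im⟩ : ℂ) (5 * d) ⊆ ball z0 (8 * R) := by
    apply ball_subset_ball'
    rw [dist_eq_norm]
    have := Complex.norm_le_abs_re_add_abs_im ((⟨z0.re, z.im⟩ : ℂ) - z0)
    rw [Complex.sub_re, Complex.sub_im, sub_self, abs_zero, zero_add] at this
    simp only at this
    linarith
  obtain ⟨k, j0, hk3, hk, hj0, hst⟩ := h.sta g hg _ hz1 (hW.mono_left hb1)
  simp only at hk hj0
  have nj0 : Nr ℓ z0.im (2 * R) j0 := Nr.shift hj0 (by linarith)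
  obtain ⟨a1, a2⟩ := near_cl h.l0 hz
  obtain ⟨b1, b2⟩ := near_cl h.l0 hz'
  -- the free lines of the row `j0`
  have hf : ∀ k' : ℤ, k' ≠ k → Nr ℓ z0.re (2 * R) k' → k' % 3 ≠ 0 ∨
      ∀ g' ∈ Γ, Disjoint (ball (cen ℓ (k', j0)) ℓ) (segment ℝ g'.p g'.v) := by
    intro k' hne hn
    by_cases h1 : k' = k - 1
    · left; omega
    right
    intro g' hg'
    by_cases hgg : g' = g
    · rw [hgg, disjoint_left]
      intro x hx hs
      have x1 := seg_re hre hs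
      rw [mem_ball, dist_eq_norm] at hx
      have x2 := Complex.abs_re_le_norm (x - cen ℓ (k', j0))
      rw [Complex.sub_re, cen_re, x1, ← r0, ← hk] at x2
      have x3 := abs_lt.1 (x2.trans_lt hx)
      rcases (by omega : k' ≤ k - 2 ∨ k + 1 ≤ k') with h2 | h2
      · have h3 : (k' : ℝ) ≤ k - 2 := by exact_mod_cast h2
        nlinarith [x3.2]
      · have h3 : (k : ℝ) + 1 ≤ k' := by exact_mod_cast h2
        nlinarith [x3.1]
    · exact (hΓ g' hg' hgg).mono_left (sub_ball hn nj0 (by linarith))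
  -- the row `j0`
  have row : ∀ i i' : ℤ, i ≤ i' → Nr ℓ z0.re (2 * R) i → Nr ℓ z0.re (2 * R) i' →
      ‖Φ (i', j0) w - Φ (i, j0) w‖ ≤ 2 * K * (|(i' : ℝ) - i| * ℓ) + d := by
    intro i i' hii hi hi'
    by_cases hc : i < k ∧ k ≤ i'
    · have n1 : Nr ℓ z0.re (2 * R) (k - 1) := hi.between hl0 hi' (by omega) (by omega)
      have n2 : Nr ℓ z0.re (2 * R) k := hi.between hl0 hi' (by omega) (by omega)
      have p1 := (reg_hor h hK hR hW hw hi n1 nj0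
        (fun k' h1 h2 hn => hf k' (by omega) hn)).hv
      have p2 := (reg_hor h hK hR hW hw n2 hi' nj0
        (fun k' h1 h2 hn => hf k' (by omega) hn)).hv
      have p3 := hst w (good_of h hR hW hw n1 nj0).2 (good_of h hR hW hw n2 nj0).2
      rw [norm_sub_rev] at p3
      have s1 := norm_sub_le_norm_sub_add_norm_sub (Φ (i', j0) w) (Φ (k, j0) w) (Φ (i, j0) w)
      have s2 := norm_sub_le_norm_sub_add_norm_sub (Φ (k, j0) w) (Φ (k - 1, j0) w) (Φ (i, j0) w)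
      have u1 : (i : ℝ) ≤ ((k - 1 : ℤ) : ℝ) := by exact_mod_cast (by omega : i ≤ k - 1)
      have u2 : (k : ℝ) ≤ i' := by exact_mod_cast hc.2
      have u3 : (i : ℝ) ≤ i' := by exact_mod_cast hii
      rw [abs_of_nonneg (by linarith)] at p1 p2 ⊢
      push_cast at p1
      have u4 : 0 ≤ K * ℓ := mul_nonneg (by linarith) hl0.le
      nlinarith
    · have p1 := (reg_hor h hK hR hW hw hi hi' nj0
        (fun k' h1 h2 hn => hf k' (by omega) hn)).hv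
      linarith
  have row' : ‖Φ (⌊z'.re / ℓ⌋, j0) w - Φ (⌊z.re / ℓ⌋, j0) w‖ ≤
      2 * K * (|((⌊z'.re / ℓ⌋ : ℤ) : ℝ) - (⌊z.re / ℓ⌋ : ℤ)| * ℓ) + d := by
    rcases le_total ⌊z.re / ℓ⌋ ⌊z'.re / ℓ⌋ with hh | hh
    · exact row _ _ hh (a1.mono (by linarith)) (b1.mono (by linarith))
    · rw [norm_sub_rev, abs_sub_comm]
      exact row _ _ hh (b1.mono (by linarith)) (a1.mono (by linarith))
  have p1 := (reg_ver h hK hR hW hw (a1.mono (by linarith)) (a2.mono (by linarith)) nj0).hv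
  have p2 := (reg_ver h hK hR hW hw (b1.mono (by linarith)) nj0 (b2.mono (by linarith))).hv
  have d1 := Nr.dist h.l0 (floor_near h.l0 z.re) (floor_near h.l0 z'.re)
  have d2 := Nr.dist h.l0 (floor_near h.l0 z.im) hj0
  have d3 := Nr.dist h.l0 hj0 (floor_near h.l0 z'.im)
  have h1 := Complex.abs_re_le_norm (z' - z)
  have h2 := Complex.abs_im_le_norm (z' - z)
  rw [Complex.sub_re] at h1
  rw [Complex.sub_im] at h2
  rw [sub_self, abs_zero] at d2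
  rw [norm_sub_rev, norm_sub_rev z z']
  rw [norm_sub_rev] at t0
  have s1 := norm_sub_le_norm_sub_add_norm_sub (Φ (⌊z'.re / ℓ⌋, ⌊z'.im / ℓ⌋) w)
    (Φ (⌊z'.re / ℓ⌋, j0) w) (Φ (⌊z.re / ℓ⌋, ⌊z.im / ℓ⌋) w)
  have s2 := norm_sub_le_norm_sub_add_norm_sub (Φ (⌊z'.re / ℓ⌋, j0) w)
    (Φ (⌊z.re / ℓ⌋, j0) w) (Φ (⌊z.re / ℓ⌋, ⌊z.im / ℓ⌋) w)
  show ‖Φ (⌊z'.re / ℓ⌋, ⌊z'.im / ℓ⌋) w - Φ (⌊z.re / ℓ⌋, ⌊z.im / ℓ⌋) w‖ ≤ _
  set t := ‖z' - z‖
  set A := |(j0 : ℝ) - (⌊z.im / ℓ⌋ : ℤ)|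
  set B := |((⌊z'.im / ℓ⌋ : ℤ) : ℝ) - j0|
  set D := |((⌊z'.re / ℓ⌋ : ℤ) : ℝ) - (⌊z.re / ℓ⌋ : ℤ)|
  have q : A * (3 * ℓ) + B * (3 * ℓ) + D * ℓ ≤ 40 * (t + d) := by nlinarith
  have q1 := mul_le_mul_of_nonneg_left q (by linarith : (0 : ℝ) ≤ 2 * K)
  have q2 : d ≤ K * (t + d) := by nlinarith
  have q3 : 0 ≤ K * (t + d) := by linarith
  nlinarith

end cells

theorem la : R_LA := fun hB => ⟨lav, la1, la2 hB⟩

end

end Pool.Agent.MP_d32a63_an.H97
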